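import Pool.Agent.H10.CM.FStmts

set_option autoImplicit false

open Polynomial

namespace Pool.CM

theorem prm (h1 : VALUStmt) : PRMStmt := by
  intro X E _ A hA i g h hg hh
  classical
  obtain ⟨v1, v2, v3, v4, v5, v6, v7⟩ := h1 X E A hA i
  refine ⟨PF.Int.mul A hg.1 hh.1, ?_⟩
  obtain ⟨hgI, hgE⟩ := hg
  obtain ⟨hhI, hhE⟩ := hh
  set n := Nat.find hgE with hn
  set m := Nat.find hhE with hm
  have hnU : A.Un i (g.coeff n) := Nat.find_spec hgE
  have hmU : A.Un i (h.coeff m) := Nat.find_spec hhE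
  have hdvmul : ∀ x y : E, A.Dv i 1 x → y ∈ A.O i → A.Dv i 1 (x * y) := by
    rintro x y ⟨z, hz, rfl⟩ hy
    exact ⟨z * y, (A.O i).mul_mem hz hy, by ring⟩
  have hga : ∀ a, a < n → A.Dv i 1 (g.coeff a) := fun a ha =>
    v1 _ (hgI a) (Nat.find_min hgE ha)
  have hhb : ∀ b, b < m → A.Dv i 1 (h.coeff b) := fun b hb =>
    v1 _ (hhI b) (Nat.find_min hhE hb)
  have hdv0 : A.Dv i 1 0 := ⟨0, (A.O i).zero_mem, by simp⟩
  have hdvO : ∀ x : E, A.Dv i 1 x → x ∈ A.O i := by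
    rintro x ⟨z, hz, rfl⟩
    exact (A.O i).mul_mem ((A.O i).pow_mem (natCast_mem _ _) _) hz
  refine ⟨n + m, ?_⟩
  rw [Polynomial.coeff_mul]
  have hmem : (n, m) ∈ Finset.HasAntidiagonal.antidiagonal (n + m) :=
    Finset.HasAntidiagonal.mem_antidiagonal.2 rfl
  rw [← Finset.add_sum_erase _ _ hmem]
  apply v5 _ _ (v6 _ _ hnU hmU)
  refine Finset.sum_induction (p := fun x : E => A.Dv i 1 x) _
    (fun x y hx hy => v2 x y hx (hdvO y hy) hy) hdv0 ?_
  rintro ⟨a, b⟩ hab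
  rw [Finset.mem_erase, Finset.HasAntidiagonal.mem_antidiagonal] at hab
  obtain ⟨hne, hsum⟩ := hab
  simp only at hsum ⊢
  rcases lt_or_ge a n with ha | ha
  · exact hdvmul _ _ (hga a ha) (hhI b)
  · have hb : b < m := by
      by_contra hcon
      apply hne
      have h1 : a = n := by omega
      have h2 : b = m := by omega
      rw [h1, h2]
    rw [mul_comm]
    exact hdvmul _ _ (hhb b hb) (hgI a)

end Pool.CM
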